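import Mathlib
import Pool.Agent.V11109.Cake.Defs
import Pool.Agent.V11109.Cake.PC
import Pool.Agent.V11109.Cake.Main

/-!
Dyadic cells of the cake and a best dyadic cell of a piecewise constant density.
-/

open MeasureTheory Set Pool.Agent.V11109.Cake

namespace Pool.Agent.U750.CakePos

/-- The dyadic cell of level `k` and index `j`: the points `x` with `j ≤ 2^k x < j+1`. -/
def cell (k j : ℕ) : Set unitInterval := {x | ⌊(x : ℝ) * 2 ^ k⌋₊ = j}

lemma cell_ordConnected (k j : ℕ) : (cell k j).OrdConnected := by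
  constructor
  intro x hx y hy z hz
  have hx' : ⌊(x : ℝ) * 2 ^ k⌋₊ = j := hx
  have hy' : ⌊(y : ℝ) * 2 ^ k⌋₊ = j := hy
  have h1 : ⌊(x : ℝ) * 2 ^ k⌋₊ ≤ ⌊(z : ℝ) * 2 ^ k⌋₊ :=
    Nat.floor_mono (mul_le_mul_of_nonneg_right hz.1 (by positivity))
  have h2 : ⌊(z : ℝ) * 2 ^ k⌋₊ ≤ ⌊(y : ℝ) * 2 ^ k⌋₊ :=
    Nat.floor_mono (mul_le_mul_of_nonneg_right hz.2 (by positivity))
  show ⌊(z : ℝ) * 2 ^ k⌋₊ = j
  omega

lemma cell_measurable (k j : ℕ) : MeasurableSet (cell k j) := (cell_ordConnected k j).measurableSet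

lemma cell_disjoint (k : ℕ) {i j : ℕ} (h : i ≠ j) : Disjoint (cell k i) (cell k j) := by
  rw [Set.disjoint_left]
  intro x hx hy
  exact h (hx.symm.trans hy)

lemma cell_subset (k t j : ℕ) : cell (k + t) j ⊆ cell k (j / 2 ^ t) := by
  intro x hx
  have hx' : ⌊(x : ℝ) * 2 ^ (k + t)⌋₊ = j := hx
  show ⌊(x : ℝ) * 2 ^ k⌋₊ = j / 2 ^ t
  have e : (x : ℝ) * 2 ^ k = (x : ℝ) * 2 ^ (k + t) / ((2 ^ t : ℕ) : ℝ) := by
    push_cast
    rw [pow_add]
    field_simp
  rw [e, Nat.floor_div_natCast, hx']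

lemma cell_subset' {k l j : ℕ} (h : k ≤ l) : cell l j ⊆ cell k (j / 2 ^ (l - k)) := by
  obtain ⟨t, rfl⟩ := Nat.exists_eq_add_of_le h
  simpa using cell_subset k t j

lemma cell_empty {k j : ℕ} (h : 2 ^ k < j) : cell k j = ∅ := by
  rw [Set.eq_empty_iff_forall_notMem]
  intro x hx
  have hx' : ⌊(x : ℝ) * 2 ^ k⌋₊ = j := hx
  have h1 : ⌊(x : ℝ) * 2 ^ k⌋₊ ≤ ⌊((2 ^ k : ℕ) : ℝ)⌋₊ := by
    apply Nat.floor_mono
    push_cast
    have := x.2.2
    nlinarith [pow_pos (two_pos : (0:ℝ) < 2) k]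
  rw [Nat.floor_natCast] at h1
  omega

lemma cell_vol_le (k j : ℕ) : vr (cell k j) ≤ 1 / 2 ^ k := by
  have h2 : (0:ℝ) < 2 ^ k := by positivity
  rcases lt_or_ge (2 ^ k) j with h | h
  · rw [cell_empty h]
    simp [vr]
  · have ha0 : (0:ℝ) ≤ j / 2 ^ k := by positivity
    have ha1 : (j:ℝ) / 2 ^ k ≤ 1 := by
      rw [div_le_one h2]; exact_mod_cast h
    have hb0 : (0:ℝ) ≤ min (1:ℝ) (((j:ℝ) + 1) / 2 ^ k) := by positivity
    have hsub : cell k j ⊆ Icc (⟨(j:ℝ) / 2 ^ k, ha0, ha1⟩ : unitInterval)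
        ⟨min (1:ℝ) (((j:ℝ) + 1) / 2 ^ k), hb0, min_le_left _ _⟩ := by
      intro x hx
      have hx' : ⌊(x : ℝ) * 2 ^ k⌋₊ = j := hx
      have hxn : 0 ≤ (x : ℝ) * 2 ^ k := mul_nonneg x.2.1 h2.le
      rw [Nat.floor_eq_iff hxn] at hx'
      constructor
      · show (j:ℝ) / 2 ^ k ≤ x
        rw [div_le_iff₀ h2]; exact hx'.1
      · show (x:ℝ) ≤ min (1:ℝ) (((j:ℝ) + 1) / 2 ^ k)
        refine le_min x.2.2 ?_
        rw [le_div_iff₀ h2]; exact hx'.2.le
    refine (vr_mono hsub).trans ?_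
    rw [vr, measureReal_def, unitInterval.volume_Icc]
    have : min (1:ℝ) (((j:ℝ) + 1) / 2 ^ k) - j / 2 ^ k ≤ 1 / 2 ^ k := by
      have := min_le_right (1:ℝ) (((j:ℝ) + 1) / 2 ^ k)
      have e : ((j:ℝ) + 1) / 2 ^ k = j / 2 ^ k + 1 / 2 ^ k := by ring
      linarith
    calc (ENNReal.ofReal (min (1:ℝ) (((j:ℝ) + 1) / 2 ^ k) - j / 2 ^ k)).toReal
        ≤ (ENNReal.ofReal (1 / 2 ^ k)).toReal :=
          ENNReal.toReal_mono ENNReal.ofReal_ne_top (ENNReal.ofReal_le_ofReal this)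
      _ = 1 / 2 ^ k := ENNReal.toReal_ofReal (by positivity)

lemma cell_vol {k j : ℕ} (h : j < 2 ^ k) : vr (cell k j) = 1 / 2 ^ k := by
  have h2 : (0:ℝ) < 2 ^ k := by positivity
  refine le_antisymm (cell_vol_le k j) ?_
  have ha0 : (0:ℝ) ≤ j / 2 ^ k := by positivity
  have hj1 : (j:ℝ) + 1 ≤ 2 ^ k := by exact_mod_cast h
  have ha1 : (j:ℝ) / 2 ^ k ≤ 1 := by
    rw [div_le_one h2]; linarith
  have hb0 : (0:ℝ) ≤ (j + 1) / 2 ^ k := by positivity
  have hb1 : ((j:ℝ) + 1) / 2 ^ k ≤ 1 := by rw [div_le_one h2]; exact hj1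
  have hsub : Ico (⟨j / 2 ^ k, ha0, ha1⟩ : unitInterval) ⟨(j + 1) / 2 ^ k, hb0, hb1⟩ ⊆
      cell k j := by
    intro x hx
    have h1 : (j:ℝ) / 2 ^ k ≤ x := hx.1
    have h3 : (x:ℝ) < (j + 1) / 2 ^ k := hx.2
    rw [div_le_iff₀ h2] at h1
    rw [lt_div_iff₀ h2] at h3
    show ⌊(x : ℝ) * 2 ^ k⌋₊ = j
    rw [Nat.floor_eq_iff (mul_nonneg x.2.1 h2.le)]
    exact ⟨h1, h3⟩
  refine le_trans ?_ (vr_mono hsub)
  rw [vr, measureReal_def, unitInterval.volume_Ico]
  rw [ENNReal.toReal_ofReal]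
  · apply le_of_eq
    show (1:ℝ) / 2 ^ k = (j + 1) / 2 ^ k - j / 2 ^ k
    ring
  · show (0:ℝ) ≤ (j + 1) / 2 ^ k - j / 2 ^ k
    have : ((j:ℝ) + 1) / 2 ^ k - j / 2 ^ k = 1 / 2 ^ k := by ring
    rw [this]; positivity

/-- The cell `cell k j` is a best cell of level `k` for `d`. -/
def IsBest (d : Density) (k j : ℕ) : Prop := ∀ i, value d (cell k i) ≤ value d (cell k j)

lemma value_nonneg (d : Density) (S : Set unitInterval) : 0 ≤ value d S :=
  integral_nonneg (fun x => d.nonneg x)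

lemma exists_best (d : Density) (k : ℕ) : ∃ j, IsBest d k j := by
  obtain ⟨j, _, hj⟩ := Finset.exists_max_image (Finset.range (2 ^ k + 1))
    (fun j => value d (cell k j)) ⟨0, by simp⟩
  refine ⟨j, fun i => ?_⟩
  by_cases hi : i ∈ Finset.range (2 ^ k + 1)
  · exact hj i hi
  · have : 2 ^ k < i := by simp at hi; omega
    rw [cell_empty this]
    simp only [value, Measure.restrict_empty, integral_zero_measure]
    exact value_nonneg d _

lemma best_pos {d : Density} {k j : ℕ} (h : IsBest d k j) : 0 < value d (cell k j) := by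
  by_contra hcon
  push Not at hcon
  have hz : ∀ i, value d (cell k i) = 0 := fun i =>
    le_antisymm ((h i).trans hcon) (value_nonneg d _)
  have hU : (⋃ i ∈ Finset.range (2 ^ k + 1), cell k i) = univ := by
    rw [Set.eq_univ_iff_forall]
    intro x
    simp only [mem_iUnion, Finset.mem_range]
    refine ⟨⌊(x : ℝ) * 2 ^ k⌋₊, ?_, rfl⟩
    by_contra hh
    have h3 : 2 ^ k < ⌊(x : ℝ) * 2 ^ k⌋₊ := by omega
    have := cell_empty h3
    have hx : x ∈ cell k ⌊(x : ℝ) * 2 ^ k⌋₊ := rfl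
    rw [this] at hx
    exact hx
  have hI := integral_biUnion_finset (μ := (volume : Measure unitInterval)) (f := d.f)
    (Finset.range (2 ^ k + 1)) (s := fun i => cell k i) (fun i _ => cell_measurable k i)
    (fun i _ j _ hij => cell_disjoint k hij)
    (fun i _ => (pc_integrable d.pc).integrableOn)
  rw [hU, setIntegral_univ] at hI
  have hs : ∑ i ∈ Finset.range (2 ^ k + 1), ∫ x in cell k i, d.f x = 0 :=
    Finset.sum_eq_zero (fun i _ => hz i)
  have := d.pos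
  linarith

/-- Every piecewise constant density attains its essential maximum on a dyadic cell. -/
lemma exists_top (d : Density) : ∃ (κ a : ℕ) (M : ℝ), a < 2 ^ κ ∧
    (∀ x ∈ cell κ a, d.f x = M) ∧ ∀ k j, value d (cell k j) ≤ M * (1 / 2 ^ k) := by
  classical
  obtain ⟨m, I, h1, h2, h3, h4⟩ := d.pc
  -- fat pieces
  let F : Finset (Fin m) := Finset.univ.filter (fun k => ∃ x ∈ I k, ∃ y ∈ I k, x < y)
  have hthin : ∀ k, k ∉ F → (I k).Subsingleton := by
    intro k hk x hx y hy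
    by_contra hne
    apply hk
    simp only [F, Finset.mem_filter, Finset.mem_univ, true_and]
    rcases lt_or_gt_of_ne hne with h | h
    · exact ⟨x, hx, y, hy, h⟩
    · exact ⟨y, hy, x, hx, h⟩
  have hnull : volume (⋃ k ∈ {k | k ∉ F}, I k) = 0 := by
    apply Set.Finite.measure_zero
    exact Set.Finite.biUnion (Set.toFinite _) (fun k hk => (hthin k hk).finite)
  have hFne : F.Nonempty := by
    by_contra hF
    rw [Finset.not_nonempty_iff_eq_empty] at hF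
    have : (⋃ k ∈ {k | k ∉ F}, I k) = univ := by
      rw [← h3]
      simp [hF]
    rw [this] at hnull
    simp at hnull
  -- value on fat pieces
  let c : Fin m → ℝ := fun k => if h : (I k).Nonempty then d.f h.some else 0
  have hc : ∀ k, ∀ x ∈ I k, d.f x = c k := by
    intro k x hx
    have hne : (I k).Nonempty := ⟨x, hx⟩
    simp only [c, dif_pos hne]
    exact h4 k x hx _ hne.some_mem
  obtain ⟨k0, hk0, hmax⟩ := Finset.exists_max_image F c hFne
  have hae : ∀ᵐ x, d.f x ≤ c k0 := by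
    rw [ae_iff]
    refine measure_mono_null ?_ hnull
    intro x hx
    simp only [mem_ofPred_eq, not_le] at hx
    have hx1 : x ∈ ⋃ k, I k := by rw [h3]; trivial
    obtain ⟨k, hk⟩ := mem_iUnion.1 hx1
    simp only [mem_iUnion]
    refine ⟨k, ?_, hk⟩
    intro hkF
    have := hmax k hkF
    rw [← hc k x hk] at this
    linarith
  have hM0 : 0 ≤ c k0 := by
    simp only [F, Finset.mem_filter, Finset.mem_univ, true_and] at hk0
    obtain ⟨x, hx, _⟩ := hk0
    rw [← hc k0 x hx]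
    exact d.nonneg x
  simp only [F, Finset.mem_filter, Finset.mem_univ, true_and] at hk0
  obtain ⟨x, hx, y, hy, hxy⟩ := hk0
  have hxy' : (0:ℝ) < (y:ℝ) - x := sub_pos.2 hxy
  obtain ⟨κ, hκ⟩ := exists_pow_lt_of_lt_one (by linarith : (0:ℝ) < ((y:ℝ) - x) / 2)
    (by norm_num : (1/2 : ℝ) < 1)
  have h2 : (0:ℝ) < 2 ^ κ := by positivity
  have hκ' : 2 < ((y:ℝ) - x) * 2 ^ κ := by
    have e : (1/2 : ℝ) ^ κ = 1 / 2 ^ κ := by rw [div_pow, one_pow]
    rw [e, div_lt_iff₀ h2] at hκ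
    linarith
  have hfl := Nat.floor_le (mul_nonneg x.2.1 h2.le)
  have hfl2 := Nat.lt_floor_add_one ((x:ℝ) * 2 ^ κ)
  refine ⟨κ, ⌊(x:ℝ) * 2 ^ κ⌋₊ + 1, c k0, ?_, ?_, ?_⟩
  · have : ((⌊(x:ℝ) * 2 ^ κ⌋₊ + 1 : ℕ) : ℝ) < ((2 ^ κ : ℕ) : ℝ) := by
      push_cast
      have hy1 : (y:ℝ) * 2 ^ κ ≤ 1 * 2 ^ κ := mul_le_mul_of_nonneg_right y.2.2 h2.le
      nlinarith
    exact_mod_cast this
  · intro z hz
    have hz' : ⌊(z : ℝ) * 2 ^ κ⌋₊ = ⌊(x:ℝ) * 2 ^ κ⌋₊ + 1 := hz
    rw [Nat.floor_eq_iff (mul_nonneg z.2.1 h2.le)] at hz'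
    push_cast at hz'
    have hzI : z ∈ I k0 := by
      refine (h1 k0).out hx hy ⟨?_, ?_⟩
      · show (x:ℝ) ≤ z
        by_contra hh
        push Not at hh
        have := mul_lt_mul_of_pos_right hh h2
        linarith
      · show (z:ℝ) ≤ y
        by_contra hh
        push Not at hh
        have := mul_lt_mul_of_pos_right hh h2
        nlinarith
    exact hc k0 z hzI
  · intro k j
    calc value d (cell k j) ≤ ∫ _ in cell k j, c k0 := by
          apply integral_mono_ae ((pc_integrable d.pc).integrableOn)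
          · exact integrableOn_const (measure_ne_top _ _)
          · exact ae_restrict_of_ae hae
      _ = c k0 * vr (cell k j) := by
          rw [setIntegral_const, smul_eq_mul, mul_comm]
      _ ≤ c k0 * (1 / 2 ^ k) := mul_le_mul_of_nonneg_left (cell_vol_le k j) hM0

end Pool.Agent.U750.CakePos
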