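import Mathlib
import Pool.Agent.V11109.Cake.Defs
import Pool.Agent.V11109.Cake.PC
import Pool.Agent.V11109.Cake.Main
import Pool.Agent.U750.CakePos.Cells

/-!
A truthful mechanism in which all agents but one receive a positive value on every profile and
the remaining agent receives nearly the whole cake.
-/

open MeasureTheory Set Pool.Agent.V11109.Cake

namespace Pool.Agent.U750.CakePos

/-- the level of a dyadic cell on which `d` attains its essential maximum -/
noncomputable def kap (d : Density) : ℕ := (exists_top d).choose

/-- the index of that cell -/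
noncomputable def idx (d : Density) : ℕ := (exists_top d).choose_spec.choose

/-- the essential maximum of `d` -/
noncomputable def top (d : Density) : ℝ := (exists_top d).choose_spec.choose_spec.choose

lemma top_spec (d : Density) : idx d < 2 ^ kap d ∧ (∀ x ∈ cell (kap d) (idx d), d.f x = top d) ∧
    ∀ k j, value d (cell k j) ≤ top d * (1 / 2 ^ k) :=
  (exists_top d).choose_spec.choose_spec.choose_spec

/-- a cell inside the top cell is a best cell of its level -/
lemma best_of_top (d : Density) {l j : ℕ} (hl : kap d ≤ l) (hj : j / 2 ^ (l - kap d) = idx d) :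
    IsBest d l j := by
  obtain ⟨h1, h2, h3⟩ := top_spec d
  have hsub : cell l j ⊆ cell (kap d) (idx d) := by
    have := cell_subset' (j := j) hl
    rwa [hj] at this
  have hjl : j < 2 ^ l := by
    have h4 : j / 2 ^ (l - kap d) < 2 ^ kap d := by rw [hj]; exact h1
    rw [Nat.div_lt_iff_lt_mul (by positivity)] at h4
    rwa [← pow_add, Nat.add_sub_cancel' hl] at h4
  intro i
  refine (h3 l i).trans (le_of_eq ?_)
  have e : value d (cell l j) = ∫ _ in cell l j, top d := by
    unfold value
    exact setIntegral_congr_fun (cell_measurable l j) (fun x hx => h2 x (hsub hx))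
  rw [e, setIntegral_const, smul_eq_mul]
  have := cell_vol hjl
  rw [vr] at this
  rw [this, mul_comm]

/-- level of the menu offered to agent `i`: it depends on the reports of the others only -/
noncomputable def lev (m e : ℕ) (p : Fin m → Density) (i : Fin m) : ℕ :=
  (Finset.univ.erase i).sup (fun j => kap (p j)) + (1 + m + e)

lemma lev_congr {m e : ℕ} {p q : Fin m → Density} {i : Fin m} (h : ∀ j, j ≠ i → p j = q j) :
    lev m e p i = lev m e q i := by
  unfold lev
  congr 1
  apply Finset.sup_congr rfl
  intro j hj
  rw [h j (Finset.ne_of_mem_erase hj)]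

/-- The assignment of disjoint best cells. -/
lemma exists_assign (m e : ℕ) (p : Fin m → Density) :
    ∃ J : Fin m → ℕ, (∀ i, IsBest (p i) (lev m e p i) (J i)) ∧
      ∀ i j, i ≠ j → Disjoint (cell (lev m e p i) (J i)) (cell (lev m e p j) (J j)) := by
  classical
  rcases Nat.eq_zero_or_pos m with hm | hm
  · subst hm
    exact ⟨fun i => i.elim0, fun i => i.elim0, fun i => i.elim0⟩
  obtain ⟨i0, _, hi0⟩ := Finset.exists_max_image (Finset.univ : Finset (Fin m))
    (fun j => kap (p j)) ⟨⟨0, hm⟩, Finset.mem_univ _⟩
  -- levels
  have hL : ∀ i, i ≠ i0 → lev m e p i = kap (p i0) + (1 + m + e) := by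
    intro i hi
    unfold lev
    congr 1
    apply le_antisymm
    · exact Finset.sup_le (fun j _ => hi0 j (Finset.mem_univ _))
    · exact Finset.le_sup (f := fun j => kap (p j))
        (Finset.mem_erase.2 ⟨hi.symm, Finset.mem_univ _⟩)
  set L := kap (p i0) + (1 + m + e) with hLdef
  set R := lev m e p i0 with hR
  have hRle : R ≤ L := by
    rw [hR, hLdef]
    unfold lev
    exact Nat.add_le_add_right (Finset.sup_le (fun j _ => hi0 j (Finset.mem_univ _))) _
  have hkR : ∀ i, i ≠ i0 → kap (p i) + (1 + m + e) ≤ R := by
    intro i hi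
    rw [hR]
    unfold lev
    exact Nat.add_le_add_right (Finset.le_sup (f := fun j => kap (p j))
      (Finset.mem_erase.2 ⟨hi, Finset.mem_univ _⟩)) _
  obtain ⟨J0, hJ0⟩ := exists_best (p i0) R
  -- candidates
  let C : Fin m → Finset ℕ := fun i =>
    if i = i0 then Finset.range m else
      (Finset.Ico (idx (p i) * 2 ^ (L - kap (p i))) ((idx (p i) + 1) * 2 ^ (L - kap (p i)))) \
        (Finset.Ico (J0 * 2 ^ (L - R)) ((J0 + 1) * 2 ^ (L - R)))
  have hC : ∀ i, m ≤ (C i).card := by
    intro i
    by_cases hi : i = i0
    · simp [C, hi]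
    · simp only [C, if_neg hi]
      refine le_trans ?_ (Finset.le_card_sdiff _ _)
      rw [Nat.card_Ico, Nat.card_Ico]
      have e1 : (idx (p i) + 1) * 2 ^ (L - kap (p i)) - idx (p i) * 2 ^ (L - kap (p i)) =
          2 ^ (L - kap (p i)) := by
        rw [add_mul, one_mul, Nat.add_sub_cancel_left]
      have e2 : (J0 + 1) * 2 ^ (L - R) - J0 * 2 ^ (L - R) = 2 ^ (L - R) := by
        rw [add_mul, one_mul, Nat.add_sub_cancel_left]
      rw [e1, e2]
      have h1 := hkR i hi
      have h2 : (L - R) + (1 + m) ≤ L - kap (p i) := by omega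
      have h3 : 2 ^ ((L - R) + (1 + m)) ≤ 2 ^ (L - kap (p i)) :=
        Nat.pow_le_pow_right (by norm_num) h2
      have h4 : m < 2 ^ m := Nat.lt_two_pow_self
      have h5 : 1 ≤ 2 ^ (L - R) := Nat.one_le_two_pow
      have h6 : 2 ^ ((L - R) + (1 + m)) = 2 ^ (L - R) * (2 * 2 ^ m) := by
        rw [pow_add, pow_add]; ring
      rw [h6] at h3
      have h7 : m ≤ 2 ^ (L - R) * m := Nat.le_mul_of_pos_left m h5
      have h8 : 2 ^ (L - R) * m + 2 ^ (L - R) ≤ 2 ^ (L - R) * (2 * 2 ^ m) := by
        calc 2 ^ (L - R) * m + 2 ^ (L - R) = 2 ^ (L - R) * (m + 1) := by ring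
          _ ≤ 2 ^ (L - R) * (2 * 2 ^ m) := Nat.mul_le_mul_left _ (by omega)
      omega
  obtain ⟨f, hfinj, hf⟩ := (Finset.all_card_le_biUnion_card_iff_exists_injective C).1 (by
    intro s
    rcases s.eq_empty_or_nonempty with hs | ⟨i, hi⟩
    · simp [hs]
    · calc s.card ≤ m := by
            have := Finset.card_le_univ s
            simpa using this
        _ ≤ (C i).card := hC i
        _ ≤ (s.biUnion C).card := Finset.card_le_card (Finset.subset_biUnion_of_mem C hi))
  have hfi : ∀ i, i ≠ i0 → f i / 2 ^ (L - kap (p i)) = idx (p i) ∧ f i / 2 ^ (L - R) ≠ J0 := by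
    intro i hi
    have := hf i
    simp only [C, if_neg hi, Finset.mem_sdiff, Finset.mem_Ico, not_and, not_lt] at this
    obtain ⟨⟨a1, a2⟩, a3⟩ := this
    refine ⟨Nat.div_eq_of_lt_le a1 a2, ?_⟩
    intro h
    have b1 : J0 * 2 ^ (L - R) ≤ f i := by
      rw [← h]; exact Nat.div_mul_le_self _ _
    have b2 := a3 b1
    have b3 : f i / 2 ^ (L - R) < J0 + 1 := by omega
    rw [Nat.div_lt_iff_lt_mul (by positivity)] at b3
    omega
  refine ⟨fun i => if i = i0 then J0 else f i, ?_, ?_⟩
  · intro i
    by_cases hi : i = i0
    · subst hi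
      simpa using hJ0
    · simp only [if_neg hi]
      rw [hL i hi]
      have h1 := hkR i hi
      exact best_of_top (p i) (by omega) (hfi i hi).1
  · have key : ∀ i, i ≠ i0 → Disjoint (cell (lev m e p i) (f i)) (cell R J0) := by
      intro i hi
      rw [hL i hi]
      exact (cell_disjoint R (hfi i hi).2).mono_left (cell_subset' hRle)
    intro i j hij
    by_cases hi : i = i0
    · have hj : j ≠ i0 := fun h => hij (hi.trans h.symm)
      simp only [if_pos hi, if_neg hj]
      rw [hi, ← hR]
      exact (key j hj).symm
    · by_cases hj : j = i0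
      · simp only [if_neg hi, if_pos hj]
        rw [hj, ← hR]
        exact key i hi
      · simp only [if_neg hi, if_neg hj]
        rw [hL i hi, hL j hj]
        exact cell_disjoint L (fun h => hij (hfinj h))

/-- the chosen cell index of agent `i` -/
noncomputable def asg (m e : ℕ) (p : Fin m → Density) : Fin m → ℕ := (exists_assign m e p).choose

lemma asg_best (m e : ℕ) (p : Fin m → Density) (i : Fin m) :
    IsBest (p i) (lev m e p i) (asg m e p i) := (exists_assign m e p).choose_spec.1 i

lemma asg_disj (m e : ℕ) (p : Fin m → Density) {i j : Fin m} (h : i ≠ j) :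
    Disjoint (cell (lev m e p i) (asg m e p i)) (cell (lev m e p j) (asg m e p j)) :=
  (exists_assign m e p).choose_spec.2 i j h

/-- the piece of the small claimant `i` -/
noncomputable def piece (m e : ℕ) (p : Fin m → Density) (i : Fin m) : Set unitInterval :=
  cell (lev m e p i) (asg m e p i)

lemma finUnion_of_pcset {S : Set unitInterval} (h : PCSet S) : FinUnionIntervals S := by
  classical
  obtain ⟨m, I, h1, h2, h3, h4⟩ := h
  refine ⟨m, fun k => if (I k ∩ S).Nonempty then I k else ∅, ?_, ?_⟩
  · intro k
    dsimp only
    split_ifs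
    · exact h1 k
    · exact ordConnected_empty
  · ext x
    simp only [mem_iUnion]
    constructor
    · intro hx
      have hx1 : x ∈ ⋃ k, I k := by rw [h3]; trivial
      obtain ⟨k, hk⟩ := mem_iUnion.1 hx1
      refine ⟨k, ?_⟩
      rw [if_pos ⟨x, hk, hx⟩]
      exact hk
    · rintro ⟨k, hk⟩
      split_ifs at hk with hne
      · obtain ⟨y, hy1, hy2⟩ := hne
        have := h4 k x hk y hy1
        rw [Set.indicator_of_mem hy2] at this
        by_contra hx
        rw [Set.indicator_of_notMem hx] at this
        norm_num at this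
      · exact absurd hk (Set.notMem_empty x)

lemma PCSet_compl {S : Set unitInterval} (h : PCSet S) : PCSet Sᶜ := by
  have := pc_comb (fun a _ => 1 - a) h h
  unfold PCSet
  convert this using 2 with x
  by_cases h1 : x ∈ S <;> simp [h1]

lemma pcset_iUnion {m : ℕ} {A : Fin m → Set unitInterval} (h : ∀ i, (A i).OrdConnected) :
    PCSet (⋃ i, A i) := pcset_of_finUnion ⟨m, A, h, rfl⟩

/-- The mechanism: the first `m` agents get their cells, the last agent gets the rest. -/
noncomputable def mech (m e : ℕ) : Mechanism (m + 1) where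
  alloc p := Fin.lastCases (⋃ i, piece m e (fun j => p j.castSucc) i)ᶜ
    (fun i => piece m e (fun j => p j.castSucc) i)
  intervals p i := by
    induction i using Fin.lastCases with
    | last =>
      rw [Fin.lastCases_last]
      exact finUnion_of_pcset (PCSet_compl (pcset_iUnion (fun i => cell_ordConnected _ _)))
    | cast i =>
      rw [Fin.lastCases_castSucc]
      exact ⟨1, fun _ => _, fun _ => cell_ordConnected _ _, by rw [iUnion_const]; rfl⟩
  disjoint p i j hij := by
    induction i using Fin.lastCases with
    | last =>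
      induction j using Fin.lastCases with
      | last => exact absurd rfl hij
      | cast j =>
        rw [Fin.lastCases_last, Fin.lastCases_castSucc]
        exact (disjoint_compl_right.mono_left (subset_iUnion _ j)).symm
    | cast i =>
      induction j using Fin.lastCases with
      | last =>
        rw [Fin.lastCases_last, Fin.lastCases_castSucc]
        exact disjoint_compl_right.mono_left (subset_iUnion _ i)
      | cast j =>
        rw [Fin.lastCases_castSucc, Fin.lastCases_castSucc]
        exact asg_disj _ _ _ (fun h => hij (by rw [h]))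
  whole p := by
    rw [Set.eq_univ_iff_forall]
    intro x
    by_cases hx : x ∈ ⋃ i, piece m e (fun j => p j.castSucc) i
    · obtain ⟨i, hi⟩ := mem_iUnion.1 hx
      refine mem_iUnion.2 ⟨i.castSucc, ?_⟩
      rw [Fin.lastCases_castSucc]
      exact hi
    · refine mem_iUnion.2 ⟨Fin.last m, ?_⟩
      rw [Fin.lastCases_last]
      exact hx

lemma mech_cast (m e : ℕ) (p : Fin (m + 1) → Density) (i : Fin m) :
    (mech m e).alloc p i.castSucc = piece m e (fun j => p j.castSucc) i := by
  show Fin.lastCases (motive := fun _ => Set unitInterval) _ _ _ = _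
  rw [Fin.lastCases_castSucc]

lemma mech_last (m e : ℕ) (p : Fin (m + 1) → Density) :
    (mech m e).alloc p (Fin.last m) = (⋃ i, piece m e (fun j => p j.castSucc) i)ᶜ := by
  show Fin.lastCases (motive := fun _ => Set unitInterval) _ _ _ = _
  rw [Fin.lastCases_last]

theorem mech_truthful (m e : ℕ) : (mech m e).Truthful := by
  intro i p g
  induction i using Fin.lastCases with
  | last =>
    rw [mech_last, mech_last]
    have : (fun j : Fin m => Function.update p (Fin.last m) g j.castSucc) =
        fun j => p j.castSucc := by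
      funext j
      rw [Function.update_of_ne (Fin.castSucc_lt_last j).ne]
    rw [this]
  | cast i =>
    rw [mech_cast, mech_cast]
    unfold piece
    have : lev m e (fun j => Function.update p i.castSucc g j.castSucc) i =
        lev m e (fun j => p j.castSucc) i := by
      apply lev_congr
      intro j hj
      rw [Function.update_of_ne]
      exact fun h => hj (Fin.castSucc_injective m h)
    rw [this]
    exact asg_best m e (fun j => p j.castSucc) i _

theorem mech_pos (m e : ℕ) (p : Fin (m + 1) → Density) (i : Fin m) :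
    0 < value (p i.castSucc) ((mech m e).alloc p i.castSucc) := by
  rw [mech_cast]
  exact best_pos (asg_best m e (fun j => p j.castSucc) i)

theorem mech_vol (m e : ℕ) (p : Fin (m + 1) → Density) :
    1 - (m:ℝ) / 2 ^ e ≤ vr ((mech m e).alloc p (Fin.last m)) := by
  rw [mech_last]
  have hms : MeasurableSet (⋃ i, piece m e (fun j => p j.castSucc) i) :=
    MeasurableSet.iUnion (fun i => cell_measurable _ _)
  have h1 : vr (⋃ i, piece m e (fun j => p j.castSucc) i)ᶜ =
      1 - vr (⋃ i, piece m e (fun j => p j.castSucc) i) := probReal_compl_eq_one_sub hms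
  rw [h1]
  have h2 : vr (⋃ i, piece m e (fun j => p j.castSucc) i) ≤
      ∑ i, vr (piece m e (fun j => p j.castSucc) i) := measureReal_iUnion_fintype_le _
  have h3 : ∑ i, vr (piece m e (fun j => p j.castSucc) i) ≤ ∑ _i : Fin m, (1:ℝ) / 2 ^ e := by
    apply Finset.sum_le_sum
    intro i _
    refine (cell_vol_le _ _).trans ?_
    apply one_div_le_one_div_of_le (by positivity)
    apply pow_le_pow_right₀ (by norm_num)
    unfold lev
    omega
  rw [Finset.sum_const, Finset.card_univ, Fintype.card_fin, nsmul_eq_mul] at h3
  have : (m:ℝ) * (1 / 2 ^ e) = m / 2 ^ e := by ring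
  linarith

end Pool.Agent.U750.CakePos
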